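import Mathlib

set_option autoImplicit false

namespace Pool.Agent.Results.MP_c9219e_nt.OddCase

/-- An `m`-product sequence: non-decreasing, its product is an `m`-th power, and every integer
occurs at most `m - 1` times. -/
def IsProdSeq (m : ℕ) (l : List ℕ) : Prop :=
  l.Pairwise (· ≤ ·) ∧ (∃ R : ℕ, l.prod = R ^ m) ∧ ∀ x : ℕ, l.count x ≤ m - 1

/-- `g m n` is the least last term of an `m`-product sequence with first term `n`. -/
noncomputable def g (m n : ℕ) : ℕ :=
  sInf {s : ℕ | ∃ l : List ℕ, IsProdSeq m l ∧ l.head? = some n ∧ l.getLast? = some s}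

lemma g_le (m a b c d i j k : ℕ) (hab : a < b) (hbc : b < c) (hcd : c < d) (hi : i + 1 ≤ m - 1)
    (hj : j ≤ m - 1) (hk : k ≤ m - 1) (e : ℕ) (he : e + 1 ≤ m - 1) (R : ℕ)
    (h : a ^ (i + 1) * b ^ j * c ^ k * d ^ (e + 1) = R ^ m) : g m a ≤ d := by
  apply Nat.sInf_le
  refine ⟨List.replicate (i + 1) a ++ List.replicate j b ++ List.replicate k c ++
    List.replicate (e + 1) d, ⟨?_, ⟨R, ?_⟩, ?_⟩, ?_, ?_⟩
  · simp only [List.pairwise_append, List.pairwise_replicate, List.mem_append, List.mem_replicate]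
    refine ⟨⟨⟨Or.inr le_rfl, Or.inr le_rfl, ?_⟩, Or.inr le_rfl, ?_⟩, Or.inr le_rfl, ?_⟩
    · rintro x ⟨_, rfl⟩ y ⟨_, rfl⟩; omega
    · rintro x (⟨_, rfl⟩ | ⟨_, rfl⟩) y ⟨_, rfl⟩ <;> omega
    · rintro x ((⟨_, rfl⟩ | ⟨_, rfl⟩) | ⟨_, rfl⟩) y ⟨_, rfl⟩ <;> omega
  · simp only [List.prod_append, List.prod_replicate]
    exact h
  · intro x
    simp only [List.count_append, List.count_replicate, beq_iff_eq]
    split_ifs <;> omega
  · simp [List.replicate_succ]
  · rw [List.replicate_succ' (n := e), ← List.append_assoc]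
    simp

set_option synthInstance.maxSize 2000 in
lemma no_cube : ∀ a < 3, ∀ b < 3, ∀ c < 3, ∀ d < 3, ∀ e < 3, ∀ R < 357, a ≠ 0 →
    4 ^ a * 5 ^ b * 6 ^ c * 7 ^ d * 8 ^ e ≠ R ^ 3 := by
  decide +kernel

lemma g_three_four : g 3 4 ≠ 8 := by
  intro h
  have hne : {s : ℕ | ∃ l : List ℕ, IsProdSeq 3 l ∧ l.head? = some 4 ∧
      l.getLast? = some s}.Nonempty := by
    by_contra hc
    rw [Set.not_nonempty_iff_eq_empty] at hc
    unfold g at h
    rw [hc] at h
    simp at h
  have hm := Nat.sInf_mem hne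
  unfold g at h
  rw [h] at hm
  obtain ⟨l, ⟨hs, ⟨R, hR⟩, hc⟩, hh, hl⟩ := hm
  have h4 : 4 ∈ l := List.mem_of_head? hh
  have hlo : ∀ x ∈ l, 4 ≤ x := by
    obtain ⟨t, rfl⟩ := List.head?_eq_some_iff.1 hh
    intro x hx
    rcases List.mem_cons.1 hx with rfl | hx
    · exact le_rfl
    · exact (List.pairwise_cons.1 hs).1 x hx
  have hhi : ∀ x ∈ l, x ≤ 8 := by
    obtain ⟨t, rfl⟩ := List.getLast?_eq_some_iff.1 hl
    intro x hx
    rcases List.mem_append.1 hx with hx | hx
    · exact (List.pairwise_append.1 hs).2.2 x hx 8 (by simp)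
    · simp at hx; omega
  have hsub : l.toFinset ⊆ ({4, 5, 6, 7, 8} : Finset ℕ) := by
    intro x hx
    have h1 := hlo x (List.mem_toFinset.1 hx)
    have h2 := hhi x (List.mem_toFinset.1 hx)
    interval_cases x <;> simp
  rw [Finset.prod_list_count_of_subset l _ hsub] at hR
  rw [Finset.prod_insert (by decide), Finset.prod_insert (by decide),
    Finset.prod_insert (by decide), Finset.prod_insert (by decide), Finset.prod_singleton] at hR
  have c4 := hc 4
  have c5 := hc 5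
  have c6 := hc 6
  have c7 := hc 7
  have c8 := hc 8
  have p4 : 0 < l.count 4 := List.count_pos_iff.2 h4
  have hR2 : R < 357 := by
    by_contra hcon
    have h1 : 357 ^ 3 ≤ R ^ 3 := Nat.pow_le_pow_left (by omega) 3
    have h2 : 4 ^ l.count 4 * (5 ^ l.count 5 * (6 ^ l.count 6 * (7 ^ l.count 7 * 8 ^ l.count 8))) ≤
        4 ^ 2 * (5 ^ 2 * (6 ^ 2 * (7 ^ 2 * 8 ^ 2))) := by
      gcongr <;> omega
    rw [hR] at h2
    have := h1.trans h2
    norm_num at this
  refine no_cube (l.count 4) (by omega) (l.count 5) (by omega) (l.count 6) (by omega)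
    (l.count 7) (by omega) (l.count 8) (by omega) R hR2 (by omega) ?_
  rw [← hR]; ring

/-- For odd `m ≥ 3`, `g m n = 2 n` forces `n = 0`, `n` prime, `n = 4` with `m ≥ 5`, or
`(m, n) = (3, 6)`. -/
theorem result (m n : ℕ) (hodd : Odd m) (hm : 3 ≤ m) (h : g m n = 2 * n) :
    n = 0 ∨ n.Prime ∨ (n = 4 ∧ 5 ≤ m) ∨ (m = 3 ∧ n = 6) := by
  by_contra hcon
  push Not at hcon
  obtain ⟨h0, hp, h4, h6⟩ := hcon
  obtain ⟨r, hr⟩ := hodd
  rcases eq_or_ne n 1 with rfl | h1
  · have : g m 1 ≤ 1 := by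
      apply Nat.sInf_le
      refine ⟨[1], ⟨by simp, ⟨1, by simp⟩, fun x => ?_⟩, rfl, rfl⟩
      have := List.count_le_length (a := x) (l := [1])
      simp only [List.length_singleton] at this
      omega
    omega
  rcases eq_or_ne n 4 with rfl | h4'
  · have : m = 3 := by have := h4 rfl; omega
    subst this
    exact g_three_four h
  rcases eq_or_ne n 6 with rfl | h6'
  · have hm3 : m ≠ 3 := fun h3 => h6 h3 rfl
    rcases eq_or_ne m 5 with rfl | hm5
    · have := g_le 5 6 7 8 9 0 0 3 (by norm_num) (by norm_num) (by norm_num) (by norm_num)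
        (by norm_num) (by norm_num) 1 (by norm_num) 12 (by norm_num)
      omega
    · obtain ⟨t, rfl⟩ : ∃ t, m = t + 7 := ⟨m - 7, by omega⟩
      have := g_le (t + 7) 6 7 8 9 5 0 (t + 5) (by norm_num) (by norm_num) (by norm_num)
        (by omega) (by omega) (by omega) (t + 3) (by omega) 72 (by
          rw [show (72 : ℕ) = 8 * 9 by norm_num, mul_pow]
          ring)
      omega
  obtain ⟨a, b, ha, hab, rfl⟩ : ∃ a b, 2 ≤ a ∧ a ≤ b ∧ n = a * b := by
    have h2 : 2 ≤ n := by omega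
    obtain ⟨c, hc⟩ := Nat.minFac_dvd n
    refine ⟨n.minFac, c, (Nat.minFac_prime h1).two_le, ?_, hc⟩
    have := Nat.minFac_sq_le_self (by omega) hp
    by_contra hlt
    have h3 : n.minFac * c < n.minFac * n.minFac :=
      Nat.mul_lt_mul_of_pos_left (not_le.1 hlt) (Nat.minFac_pos n)
    rw [← hc, ← sq] at h3
    omega
  have hlt : (a + 1) * (b + 1) < 2 * (a * b) := by
    rcases eq_or_lt_of_le ha with rfl | ha3
    · have : 4 ≤ b := by omega
      omega
    · nlinarith
  obtain ⟨t, rfl⟩ : ∃ t, m = t + 2 := ⟨m - 2, by omega⟩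
  rcases eq_or_lt_of_le hab with rfl | hab'
  · have := g_le (t + 2) (a * a) (a * (a + 1)) (a * (a + 1) + 1) ((a + 1) * (a + 1)) 0 t 0
      (by nlinarith) (by omega) (by nlinarith) (by omega) (by omega) (by omega) 0 (by omega)
      (a * (a + 1)) (by ring)
    omega
  · have := g_le (t + 2) (a * b) (a * (b + 1)) (b * (a + 1)) ((a + 1) * (b + 1)) 0 (t + 1) (t + 1)
      (by nlinarith) (by nlinarith) (by nlinarith) (by omega) (by omega) (by omega) 0 (by omega)
      (a * (b + 1) * (b * (a + 1))) (by rw [mul_pow (a * (b + 1)) (b * (a + 1))]; ring)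
    omega

end Pool.Agent.Results.MP_c9219e_nt.OddCase
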